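import Pool.Agent.MWGQ.StmtsC

/-!
# MWGQ, row SAF: the word `wf n τ r false false` satisfies the conditions
-/

namespace Pool.Agent.MWGQ.H88

open Pool.Agent.MWK (pre)
open Pool.Agent.MWGN (Nm WC WT Tau Ns nl sg nn NF tw KF Kx Ky)

/-- the blocks between the lights -/
def bl (n : ℕ) (v : Bool) (r : ℕ) : List ℕ :=
  (List.range r).flatMap (fun i => NF.L (i + 1) :: gp n false v i)

/-- the tails -/
def tl (l : List ℕ) : List ℕ := l.flatMap (fun i => [NF.S i, NF.L i])

/-- the part in front of the light `j + 1` -/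
def A (n : ℕ) (v : Bool) (j : ℕ) : List ℕ :=
  List.replicate (2 * n) 0 ++ (NF.L 0 :: (List.replicate (2 * n) 1 ++ bl n v j))

/-- the part in front of the light `r + 2` -/
def B (n : ℕ) (v : Bool) (r : ℕ) : List ℕ :=
  A n v r ++ (NF.L (r + 1) :: List.replicate (2 * n) 0)

/-- the part in front of `2` -/
def D (n : ℕ) (v : Bool) (r : ℕ) : List ℕ :=
  B n v r ++ (NF.L (r + 2) :: List.replicate (2 * n) 1)

theorem hL (i : ℕ) : NF.L i = 4 + 3 * i := rfl
theorem hC (i : ℕ) : NF.C i = 5 + 3 * i := rfl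
theorem hS (i : ℕ) : NF.S i = 3 + 3 * i := rfl

theorem wf_eq (n : ℕ) (τ : List ℕ) (r : ℕ) (v : Bool) :
    wf n τ r false v = D n v r ++ 2 :: tl (tw τ r) := by
  simp only [wf, D, B, A, bl, tl, List.append_assoc, List.cons_append]

theorem bl_succ (n : ℕ) (v : Bool) (r : ℕ) :
    bl n v (r + 1) = bl n v r ++ NF.L (r + 1) :: gp n false v r := by
  simp [bl, List.range_succ, List.flatMap_append]

theorem cgp (n : ℕ) (v : Bool) (i c : ℕ) : (gp n false v i).count c =
    (if 5 + 3 * (i + 1) = c then n + 1 else 0) + (if v then (if 0 = c then 2 * n else 0) else 0) := by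
  cases v <;> simp [gp, hC, List.count_replicate]

theorem cbl0 (n : ℕ) (v : Bool) (r : ℕ) : (bl n v r).count 0 = if v then 2 * n * r else 0 := by
  induction r with
  | zero => simp [bl]
  | succ r ih =>
    rw [bl_succ, List.count_append, ih, List.count_cons, cgp, hL]
    cases v
    · simp
    · simp
      ring

theorem cbl1 (n : ℕ) (v : Bool) (r : ℕ) : (bl n v r).count 1 = 0 := by
  induction r with
  | zero => simp [bl]
  | succ r ih =>
    rw [bl_succ, List.count_append, ih, List.count_cons, cgp, hL]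
    have e1 : ¬ (5 + 3 * (r + 1) = 1) := by omega
    have e2 : ¬ (4 + 3 * (r + 1) = 1) := by omega
    cases v <;> simp [e1, e2]

theorem cbl2 (n : ℕ) (v : Bool) (r : ℕ) : (bl n v r).count 2 = 0 := by
  induction r with
  | zero => simp [bl]
  | succ r ih =>
    rw [bl_succ, List.count_append, ih, List.count_cons, cgp, hL]
    have e1 : ¬ (5 + 3 * (r + 1) = 2) := by omega
    have e2 : ¬ (4 + 3 * (r + 1) = 2) := by omega
    cases v <;> simp [e1, e2]

theorem cblS (n : ℕ) (v : Bool) (r i : ℕ) : (bl n v r).count (3 + 3 * i) = 0 := by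
  induction r with
  | zero => simp [bl]
  | succ r ih =>
    rw [bl_succ, List.count_append, ih, List.count_cons, cgp, hL]
    have e1 : ¬ (5 + 3 * (r + 1) = 3 + 3 * i) := by omega
    have e2 : ¬ (4 + 3 * (r + 1) = 3 + 3 * i) := by omega
    have e3 : ¬ (0 = 3 + 3 * i) := by omega
    cases v <;> simp [e1, e2, e3]

theorem cblL (n : ℕ) (v : Bool) (r i : ℕ) :
    (bl n v r).count (4 + 3 * i) = if 1 ≤ i ∧ i ≤ r then 1 else 0 := by
  induction r with
  | zero =>
    rw [if_neg (show ¬ (1 ≤ i ∧ i ≤ 0) by omega)]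
    simp [bl]
  | succ r ih =>
    rw [bl_succ, List.count_append, ih, List.count_cons, cgp, hL]
    have e1 : ¬ (5 + 3 * (r + 1) = 4 + 3 * i) := by omega
    have e3 : ¬ (0 = 4 + 3 * i) := by omega
    rcases Nat.lt_trichotomy i (r + 1) with h | h | h
    · have e6 : ¬ (r + 1 = i) := by omega
      by_cases h1 : 1 ≤ i
      · have e4 : 1 ≤ i ∧ i ≤ r := by omega
        have e5 : 1 ≤ i ∧ i ≤ r + 1 := by omega
        cases v <;> simp [e1, e3, e4, e5, e6]
      · have e4 : ¬ (1 ≤ i ∧ i ≤ r) := by omega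
        have e5 : ¬ (1 ≤ i ∧ i ≤ r + 1) := by omega
        cases v <;> simp [e1, e3, e4, e5, e6]
    · have e2 : (4 + 3 * (r + 1) = 4 + 3 * i) := by omega
      have e4 : ¬ (1 ≤ i ∧ i ≤ r) := by omega
      have e5 : 1 ≤ i ∧ i ≤ r + 1 := by omega
      rw [if_neg e4, if_pos e5, if_neg e1, if_neg e3]
      simp [e2]
    · have e6 : ¬ (r + 1 = i) := by omega
      have e4 : ¬ (1 ≤ i ∧ i ≤ r) := by omega
      have e5 : ¬ (1 ≤ i ∧ i ≤ r + 1) := by omega
      rw [if_neg e4, if_neg e5, if_neg e1, if_neg e3]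
      simp [e6]

theorem cblC (n : ℕ) (v : Bool) (r i : ℕ) :
    (bl n v r).count (5 + 3 * i) = if 1 ≤ i ∧ i ≤ r then n + 1 else 0 := by
  induction r with
  | zero =>
    rw [if_neg (show ¬ (1 ≤ i ∧ i ≤ 0) by omega)]
    simp [bl]
  | succ r ih =>
    rw [bl_succ, List.count_append, ih, List.count_cons, cgp, hL]
    have e1 : ¬ (4 + 3 * (r + 1) = 5 + 3 * i) := by omega
    have e3 : ¬ (0 = 5 + 3 * i) := by omega
    rcases Nat.lt_trichotomy i (r + 1) with h | h | h
    · have e2 : ¬ (5 + 3 * (r + 1) = 5 + 3 * i) := by omega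
      by_cases h1 : 1 ≤ i
      · have e4 : 1 ≤ i ∧ i ≤ r := by omega
        have e5 : 1 ≤ i ∧ i ≤ r + 1 := by omega
        rw [if_pos e4, if_pos e5, if_neg e2, if_neg e3]
        simp [e1]
      · have e4 : ¬ (1 ≤ i ∧ i ≤ r) := by omega
        have e5 : ¬ (1 ≤ i ∧ i ≤ r + 1) := by omega
        rw [if_neg e4, if_neg e5, if_neg e2, if_neg e3]
        simp [e1]
    · have e2 : (5 + 3 * (r + 1) = 5 + 3 * i) := by omega
      have e4 : ¬ (1 ≤ i ∧ i ≤ r) := by omega
      have e5 : 1 ≤ i ∧ i ≤ r + 1 := by omega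
      rw [if_neg e4, if_pos e5, if_pos e2, if_neg e3]
      simp [e1]
    · have e2 : ¬ (5 + 3 * (r + 1) = 5 + 3 * i) := by omega
      have e4 : ¬ (1 ≤ i ∧ i ≤ r) := by omega
      have e5 : ¬ (1 ≤ i ∧ i ≤ r + 1) := by omega
      rw [if_neg e4, if_neg e5, if_neg e2, if_neg e3]
      simp [e1]

/-! ### the tails -/

theorem tl_cons (i : ℕ) (l : List ℕ) : tl (i :: l) = NF.S i :: NF.L i :: tl l := by
  simp [tl]

theorem ctl (l : List ℕ) (c : ℕ) (h1 : ∀ i, 3 + 3 * i ≠ c) (h2 : ∀ i, 4 + 3 * i ≠ c) :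
    (tl l).count c = 0 := by
  induction l with
  | nil => simp [tl]
  | cons i l ih =>
    rw [tl_cons, List.count_cons, List.count_cons, ih, hL, hS]
    simp [h1 i, h2 i]

theorem ctlS (l : List ℕ) (i : ℕ) : (tl l).count (3 + 3 * i) = l.count i := by
  induction l with
  | nil => simp [tl]
  | cons j l ih =>
    rw [tl_cons, List.count_cons, List.count_cons, ih, hL, hS, List.count_cons]
    have e1 : ¬ (4 + 3 * j = 3 + 3 * i) := by omega
    by_cases h : j = i
    · subst h
      simp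
    · have e2 : ¬ (3 + 3 * j = 3 + 3 * i) := by omega
      simp [e1, e2, h]

theorem ctlL (l : List ℕ) (i : ℕ) : (tl l).count (4 + 3 * i) = l.count i := by
  induction l with
  | nil => simp [tl]
  | cons j l ih =>
    rw [tl_cons, List.count_cons, List.count_cons, ih, hL, hS, List.count_cons]
    have e1 : ¬ (3 + 3 * j = 4 + 3 * i) := by omega
    by_cases h : j = i
    · subst h
      simp
    · have e2 : ¬ (4 + 3 * j = 4 + 3 * i) := by omega
      simp [e1, e2, h]

/-! ### counts in the prefixes -/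

theorem cA (n : ℕ) (v : Bool) (j c : ℕ) : (A n v j).count c =
    (if 0 = c then 2 * n else 0) + ((if 1 = c then 2 * n else 0) + (bl n v j).count c +
      (if 4 = c then 1 else 0)) := by
  simp only [A, List.count_append, List.count_cons, List.count_replicate, hL]
  simp

theorem cB (n : ℕ) (v : Bool) (r c : ℕ) : (B n v r).count c =
    (A n v r).count c + ((if 0 = c then 2 * n else 0) + (if 4 + 3 * (r + 1) = c then 1 else 0)) := by
  simp only [B, List.count_append, List.count_cons, List.count_replicate, hL]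
  simp

theorem cD (n : ℕ) (v : Bool) (r c : ℕ) : (D n v r).count c =
    (B n v r).count c + ((if 1 = c then 2 * n else 0) + (if 4 + 3 * (r + 2) = c then 1 else 0)) := by
  simp only [D, List.count_append, List.count_cons, List.count_replicate, hL]
  simp

theorem A0 (n : ℕ) (v : Bool) (j : ℕ) :
    (A n v j).count 0 = 2 * n + (if v then 2 * n * j else 0) := by
  rw [cA, cbl0]; simp

theorem A1 (n : ℕ) (v : Bool) (j : ℕ) : (A n v j).count 1 = 2 * n := by
  rw [cA, cbl1]; simp

theorem AL (n : ℕ) (v : Bool) (j i : ℕ) :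
    (A n v j).count (4 + 3 * i) = if i ≤ j then 1 else 0 := by
  rw [cA, cblL]
  have e0 : ¬ (0 = 4 + 3 * i) := by omega
  have e1 : ¬ (1 = 4 + 3 * i) := by omega
  rw [if_neg e0, if_neg e1]
  rcases Nat.eq_zero_or_pos i with h | h
  · subst h; simp
  · have e2 : ¬ (4 = 4 + 3 * i) := by omega
    rw [if_neg e2]
    by_cases h' : i ≤ j
    · rw [if_pos ⟨h, h'⟩, if_pos h']
    · rw [if_neg (by omega), if_neg h']

theorem AC (n : ℕ) (v : Bool) (j i : ℕ) :
    (A n v j).count (5 + 3 * i) = if 1 ≤ i ∧ i ≤ j then n + 1 else 0 := by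
  rw [cA, cblC]
  have e0 : ¬ (0 = 5 + 3 * i) := by omega
  have e1 : ¬ (1 = 5 + 3 * i) := by omega
  have e2 : ¬ (4 = 5 + 3 * i) := by omega
  rw [if_neg e0, if_neg e1, if_neg e2]
  simp

theorem AS (n : ℕ) (v : Bool) (j i : ℕ) : (A n v j).count (3 + 3 * i) = 0 := by
  rw [cA, cblS]
  have e0 : ¬ (0 = 3 + 3 * i) := by omega
  have e1 : ¬ (1 = 3 + 3 * i) := by omega
  have e2 : ¬ (4 = 3 + 3 * i) := by omega
  rw [if_neg e0, if_neg e1, if_neg e2]

theorem A2 (n : ℕ) (v : Bool) (j : ℕ) : (A n v j).count 2 = 0 := by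
  rw [cA, cbl2]; simp

theorem BL (n : ℕ) (v : Bool) (r i : ℕ) :
    (B n v r).count (4 + 3 * i) = if i ≤ r + 1 then 1 else 0 := by
  rw [cB, AL]
  have e0 : ¬ (0 = 4 + 3 * i) := by omega
  rw [if_neg e0]
  rcases Nat.lt_trichotomy i (r + 1) with h | h | h
  · rw [if_pos (by omega), if_neg (by omega), if_pos (by omega)]
  · rw [if_neg (by omega), if_pos (by omega), if_pos (by omega)]
  · rw [if_neg (by omega), if_neg (by omega), if_neg (by omega)]

theorem DL (n : ℕ) (v : Bool) (r i : ℕ) :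
    (D n v r).count (4 + 3 * i) = if i ≤ r + 2 then 1 else 0 := by
  rw [cD, BL]
  have e0 : ¬ (1 = 4 + 3 * i) := by omega
  rw [if_neg e0]
  rcases Nat.lt_trichotomy i (r + 2) with h | h | h
  · rw [if_pos (by omega), if_neg (by omega), if_pos (by omega)]
  · rw [if_neg (by omega), if_pos (by omega), if_pos (by omega)]
  · rw [if_neg (by omega), if_neg (by omega), if_neg (by omega)]

theorem BC (n : ℕ) (v : Bool) (r i : ℕ) :
    (B n v r).count (5 + 3 * i) = if 1 ≤ i ∧ i ≤ r then n + 1 else 0 := by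
  rw [cB, AC, if_neg (show ¬ (0 = 5 + 3 * i) by omega),
    if_neg (show ¬ (4 + 3 * (r + 1) = 5 + 3 * i) by omega)]
  simp

theorem DC (n : ℕ) (v : Bool) (r i : ℕ) :
    (D n v r).count (5 + 3 * i) = if 1 ≤ i ∧ i ≤ r then n + 1 else 0 := by
  rw [cD, BC, if_neg (show ¬ (1 = 5 + 3 * i) by omega),
    if_neg (show ¬ (4 + 3 * (r + 2) = 5 + 3 * i) by omega)]
  simp

theorem BS (n : ℕ) (v : Bool) (r i : ℕ) : (B n v r).count (3 + 3 * i) = 0 := by
  rw [cB, AS, if_neg (show ¬ (0 = 3 + 3 * i) by omega),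
    if_neg (show ¬ (4 + 3 * (r + 1) = 3 + 3 * i) by omega)]

theorem DS (n : ℕ) (v : Bool) (r i : ℕ) : (D n v r).count (3 + 3 * i) = 0 := by
  rw [cD, BS, if_neg (show ¬ (1 = 3 + 3 * i) by omega),
    if_neg (show ¬ (4 + 3 * (r + 2) = 3 + 3 * i) by omega)]

theorem B2 (n : ℕ) (v : Bool) (r : ℕ) : (B n v r).count 2 = 0 := by
  rw [cB, A2, if_neg (by omega), if_neg (show ¬ (4 + 3 * (r + 1) = 2) by omega)]

theorem D2 (n : ℕ) (v : Bool) (r : ℕ) : (D n v r).count 2 = 0 := by
  rw [cD, B2, if_neg (by omega), if_neg (show ¬ (4 + 3 * (r + 2) = 2) by omega)]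

theorem B0 (n : ℕ) (v : Bool) (r : ℕ) :
    (B n v r).count 0 = 2 * n + (if v then 2 * n * r else 0) + 2 * n := by
  rw [cB, A0, if_neg (show ¬ (4 + 3 * (r + 1) = 0) by omega)]; simp

theorem D0 (n : ℕ) (v : Bool) (r : ℕ) :
    (D n v r).count 0 = 2 * n + (if v then 2 * n * r else 0) + 2 * n := by
  rw [cD, B0, if_neg (show ¬ (4 + 3 * (r + 2) = 0) by omega)]; simp

theorem B1 (n : ℕ) (v : Bool) (r : ℕ) : (B n v r).count 1 = 2 * n := by
  rw [cB, A1, if_neg (show ¬ (4 + 3 * (r + 1) = 1) by omega)]; simp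

theorem D1 (n : ℕ) (v : Bool) (r : ℕ) : (D n v r).count 1 = 2 * n + 2 * n := by
  rw [cD, B1, if_neg (show ¬ (4 + 3 * (r + 2) = 1) by omega)]; simp

/-! ### the first occurrences -/

theorem bl_split (n : ℕ) (v : Bool) (r j : ℕ) (h : j < r) :
    ∃ R, bl n v r = bl n v j ++ NF.L (j + 1) :: R := by
  induction r with
  | zero => omega
  | succ r ih =>
    rcases Nat.lt_or_ge j r with h' | h'
    · obtain ⟨R, hR⟩ := ih h'
      exact ⟨R ++ NF.L (r + 1) :: gp n false v r, by
        rw [bl_succ, hR, List.append_assoc, List.cons_append]⟩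
    · obtain rfl : j = r := by omega
      exact ⟨gp n false v j, bl_succ n v j⟩

theorem preL0 (n : ℕ) (v : Bool) (τ : List ℕ) (r : ℕ) :
    pre (wf n τ r false v) (NF.L 0) = List.replicate (2 * n) 0 := by
  rw [wf_eq, D, B, A, List.append_assoc, List.append_assoc, List.append_assoc, List.cons_append]
  refine MWK.pre_split ?_ _
  rw [hL]
  intro h
  have := List.eq_of_mem_replicate h
  omega

theorem preL (n : ℕ) (v : Bool) (τ : List ℕ) (r j : ℕ) (h : j ≤ r) :
    pre (wf n τ r false v) (NF.L (j + 1)) = A n v j := by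
  have key : ∃ R, A n v r ++ NF.L (r + 1) :: (List.replicate (2 * n) 0 ++
      (NF.L (r + 2) :: (List.replicate (2 * n) 1 ++ 2 :: tl (tw τ r)))) =
      A n v j ++ NF.L (j + 1) :: R := by
    rcases Nat.lt_or_ge j r with h' | h'
    · obtain ⟨R, hR⟩ := bl_split n v r j h'
      refine ⟨R ++ NF.L (r + 1) :: (List.replicate (2 * n) 0 ++
      (NF.L (r + 2) :: (List.replicate (2 * n) 1 ++ 2 :: tl (tw τ r)))), ?_⟩
      rw [A, hR, A]
      simp only [List.append_assoc, List.cons_append]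
    · obtain rfl : j = r := by omega
      exact ⟨_, rfl⟩
  obtain ⟨R, hR⟩ := key
  have e : wf n τ r false v = A n v j ++ NF.L (j + 1) :: R := by
    rw [← hR, wf_eq, D, B]
    simp only [List.append_assoc, List.cons_append]
  rw [e]
  refine MWK.pre_split ?_ _
  rw [← List.count_eq_zero, hL, AL, if_neg (by omega)]

theorem preLr (n : ℕ) (v : Bool) (τ : List ℕ) (r : ℕ) :
    pre (wf n τ r false v) (NF.L (r + 2)) = B n v r := by
  rw [wf_eq, D, List.append_assoc, List.cons_append]
  refine MWK.pre_split ?_ _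
  rw [← List.count_eq_zero, hL, BL, if_neg (by omega)]

theorem pre2 (n : ℕ) (v : Bool) (τ : List ℕ) (r : ℕ) :
    pre (wf n τ r false v) 2 = D n v r := by
  rw [wf_eq]
  refine MWK.pre_split ?_ _
  rw [← List.count_eq_zero, D2]

theorem preS (h1 : MWGN.PrfStmt) (n : ℕ) (v : Bool) (τ : List ℕ) (r j : ℕ) (hj : j ∈ tw τ r) :
    pre (wf n τ r false v) (NF.S j) = D n v r ++ 2 :: tl (pre (tw τ r) j) := by
  rw [wf_eq]
  have e1 : D n v r ++ 2 :: tl (tw τ r) = (D n v r ++ [2]) ++ tl (tw τ r) := by simp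
  have e2 : D n v r ++ 2 :: tl (pre (tw τ r) j) = (D n v r ++ [2]) ++ tl (pre (tw τ r) j) := by simp
  rw [e1, e2, MWK.pre_append]
  · congr 1
    have := h1 NF.S (fun i => [NF.L i]) (tw τ r) j hj ?_ ?_ []
    · rw [List.append_nil] at this
      exact this
    · intro i _ hij
      rw [hS, hS]; omega
    · intro i _ _
      rw [List.mem_singleton, hS, hL]; omega
  · rw [List.mem_append, not_or]
    constructor
    · rw [← List.count_eq_zero, hS, DS]
    · rw [List.mem_singleton, hS]; omega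

/-! ### counts in the word -/

theorem cw (n : ℕ) (v : Bool) (τ : List ℕ) (r c : ℕ) : (wf n τ r false v).count c =
    (D n v r).count c + ((tl (tw τ r)).count c + if 2 = c then 1 else 0) := by
  rw [wf_eq, List.count_append, List.count_cons]
  simp

theorem tcnt {τ : List ℕ} {m i : ℕ} (h : Tau τ m) (hi : i ≤ m) : τ.count i = 1 :=
  List.count_eq_one_of_mem h.1 ((h.2 i).2 hi)

theorem cwL (n : ℕ) (v : Bool) {τ : List ℕ} {r : ℕ} (ht : Tau (tw τ r) (r + 2)) {i : ℕ}
    (hi : i ≤ r + 2) : (wf n τ r false v).count (NF.L i) = 2 := by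
  rw [cw, hL, DL, ctlL, tcnt ht hi, if_pos hi, if_neg (by omega)]

theorem cwC (n : ℕ) (v : Bool) (τ : List ℕ) (r : ℕ) {i : ℕ} (h1 : 1 ≤ i)
    (hi : i ≤ r) : (wf n τ r false v).count (NF.C i) = n + 1 := by
  rw [cw, hC, DC, ctl _ _ (fun j => by omega) (fun j => by omega), if_pos ⟨h1, hi⟩,
    if_neg (by omega)]

theorem cwS (n : ℕ) (v : Bool) {τ : List ℕ} {r : ℕ} (ht : Tau (tw τ r) (r + 2)) {i : ℕ}
    (hi : i ≤ r + 2) : (wf n τ r false v).count (NF.S i) = 1 := by
  rw [cw, hS, DS, ctlS, tcnt ht hi, if_neg (by omega)]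

theorem cw0 (n : ℕ) (v : Bool) (τ : List ℕ) (r : ℕ) :
    (wf n τ r false v).count 0 = 2 * n + (if v then 2 * n * r else 0) + 2 * n := by
  rw [cw, D0, ctl _ _ (fun j => by omega) (fun j => by omega)]; simp

theorem cw1 (n : ℕ) (v : Bool) (τ : List ℕ) (r : ℕ) :
    (wf n τ r false v).count 1 = 2 * n + 2 * n := by
  rw [cw, D1, ctl _ _ (fun j => by omega) (fun j => by omega)]; simp

theorem cw2 (n : ℕ) (v : Bool) (τ : List ℕ) (r : ℕ) :
    (wf n τ r false v).count 2 = 1 := by
  rw [cw, D2, ctl _ _ (fun j => by omega) (fun j => by omega)]; simp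

/-- the tails -/
theorem wt (h1 : MWGN.PrfStmt) (n : ℕ) (τ : List ℕ) (r : ℕ)
    (ht : Tau (tw τ r) (r + 2)) : WT NF (tw τ r) (r + 2) (wf n τ r false false) where
  ss i hi := cwS n false ht hi
  oS i hi := by
    show (pre _ 2).count _ = 0
    rw [pre2, hS, DS]
  os i j hi hj hij := by
    show (pre _ _).count _ = 0
    rw [preS h1 n false τ r i ((ht.2 i).2 hi), List.count_append, List.count_cons, hS, DS, ctlS,
      List.count_eq_zero.2 (MWK.pre_asymm hij)]
    have : ¬ (2 = 3 + 3 * j) := by omega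
    simp [this]
  lt i hi := by
    show (pre _ _).count _ = 1
    rw [preS h1 n false τ r i ((ht.2 i).2 hi), List.count_append, List.count_cons, hL, DL, ctlL,
      List.count_eq_zero.2 (MWK.not_mem_pre _ _), if_pos hi]
    have : ¬ (2 = 4 + 3 * i) := by omega
    simp [this]
  lT i j hi hj hij := by
    show (pre _ _).count _ = _
    rw [cwL n false ht hi, preS h1 n false τ r j ((ht.2 j).2 hj), List.count_append,
      List.count_cons, hL, DL, ctlL, if_pos hi]
    have e : (pre (tw τ r) j).count i = 1 :=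
      List.count_eq_one_of_mem (ht.1.sublist (MWK.pre_prefix _ _).sublist) hij
    have : ¬ (2 = 4 + 3 * i) := by omega
    rw [e]
    simp [this]

/-- the conditions -/
theorem kf (h1 : MWGN.PrfStmt) (n : ℕ) (hn : 1 ≤ n) (τ : List ℕ) (r : ℕ)
    (ht : Tau (tw τ r) (r + 2)) (hr : 1 ≤ r) : KF τ r (wf n τ r false false) where
  sb := cw2 n false τ r
  x2 := by rw [cw0]; simp; omega
  y2 := by rw [cw1]; omega
  xb := by
    show (pre _ 2).count _ = _
    rw [pre2, D0, cw0]
  yb := by
    show (pre _ 2).count _ = _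
    rw [pre2, D1, cw1]
  l2 i hi := by rw [cwL n false ht hi]
  lb i hi := by
    show (pre _ 2).count _ = _
    rw [pre2, hL, DL, if_pos hi]
  c2 i hi hi' := by rw [cwC n false τ r hi hi']; omega
  cb i hi hi' := by
    show (pre _ 2).count _ = _
    rw [pre2, cwC n false τ r hi hi', hC, DC, if_pos ⟨hi, hi'⟩]
  x0 := by
    show 1 ≤ (pre _ _).count _
    rw [preL0, List.count_replicate_self]; omega
  xr := by
    show (pre _ _).count _ < _
    rw [preL n false τ r r le_rfl, A0, cw0]; simp; omega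
  xt := by
    show (pre _ _).count _ = _
    rw [preLr, B0, cw0]
  y0 := by
    show (pre _ _).count _ = _
    rw [preL0, List.count_replicate]; simp
  y1 := by
    show 1 ≤ (pre _ _).count _
    rw [preL n false τ r 0 (by omega), A1]; omega
  yr := by
    show (pre _ _).count _ < _
    rw [preLr, B1, cw1]; omega
  cl0 i hi hi' j hj := by
    show (pre _ _).count _ = _
    rcases j with _ | j
    · rw [preL0, hC, List.count_eq_zero]
      intro h
      have := List.eq_of_mem_replicate h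
      omega
    · rw [preL n false τ r j (by omega), hC, AC, if_neg (by omega)]
  cl1 i hi hi' j hj hj' := by
    show (pre _ _).count _ = _
    rw [cwC n false τ r hi hi']
    rcases j with _ | j
    · omega
    · rcases Nat.lt_or_ge r j with h | h
      · obtain rfl : j = r + 1 := by omega
        rw [preLr, hC, BC, if_pos ⟨hi, hi'⟩]
      · rw [preL n false τ r j h, hC, AC, if_pos (by omega)]
  wt := wt h1 n τ r ht

/-- SAF -/
theorem saf (h1 : MWGN.PrfStmt) (h2 : MWGN.TwtStmt) : SafStmt := by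
  intro n hn τ r hr hτ
  have ht := (h2 τ r hr hτ).1
  have hk := kf h1 n hn τ r ht hr
  have hrf : RF n r (wf n τ r false false) := by
    refine ⟨fun i hi => ?_, fun i hi hi' => ?_⟩
    · rw [cwL n false ht hi]
    · rw [cwC n false τ r hi hi']
      show (n + 1) % n = 1 % n
      simp
  refine ⟨⟨⟨hk, ?_⟩, hrf⟩, ⟨⟨hk, ?_⟩, hrf⟩, ?_⟩
  · show (pre _ _).count _ = (pre _ _).count _
    rw [preL0, preL n false τ r r le_rfl, A0, List.count_replicate_self]; simp
  · show (pre _ _).count _ = (pre _ _).count _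
    rw [preL n false τ r 0 (by omega), preLr, A1, B1]
  · rintro ⟨⟨_, h⟩, _⟩
    have h' : (pre (wf n τ r false true) (NF.L 0)).count 0 =
      (pre (wf n τ r false true) (NF.L (r + 1))).count 0 := h
    rw [preL0, preL n true τ r r le_rfl, A0, List.count_replicate_self] at h'
    have : 0 < 2 * n * r := by positivity
    simp at h'
    omega

end Pool.Agent.MWGQ.H88
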